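import Pool.Agent.X182.SH.Fin

/-!
# A homogeneous space which is not a countable union of strongly homogeneous subspaces

ZFC proves that there is a zero-dimensional separable metrizable space `X` (a subspace of the
Cantor set) which is homogeneous, hence `σ`-homogeneous, but which is not the union of countably
many strongly homogeneous subspaces.  Even more, countably many strongly homogeneous subspaces
always leave continuum many points of `X` uncovered.

The space `X` is closed under changes of finitely many coordinates, so it is homogeneous.  By a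
transfinite recursion of length continuum every homeomorphism between subspaces of `X` changes only
finitely many coordinates, except at fewer than continuum many points.  So it preserves the outer
measure up to fewer than continuum many points, for the coin tossing measure, and a strongly
homogeneous subspace has outer measure zero up to fewer than continuum many points.
-/

set_option autoImplicit false

namespace Pool.Agent.Results.MP_999952_gt.HomogeneousNotStrongly

open Set Cardinal Topology Pool.Agent.H3R3.Rigid

/-- A space `Y` is homogeneous if every point can be moved to every other point by a homeomorphism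
of `Y` onto itself. -/
def Homogeneous (Y : Type) [TopologicalSpace Y] : Prop :=
  ∀ x y : Y, ∃ h : Y ≃ₜ Y, h x = y

/-- A nonempty space `Y` is strongly homogeneous if every nonempty clopen subset of `Y`, with the
subspace topology, is homeomorphic to `Y`. -/
def StronglyHomogeneous (Y : Type) [TopologicalSpace Y] : Prop :=
  Nonempty Y ∧ ∀ U : Set Y, IsClopen U → U.Nonempty → Nonempty (U ≃ₜ Y)

/-- `X` is the union of countably many homogeneous subspaces. -/
def SigmaHomogeneous (X : Type) [TopologicalSpace X] : Prop :=
  ∃ A : ℕ → Set X, (⋃ n, A n) = Set.univ ∧ ∀ n, Homogeneous (A n)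

/-- `X` is the union of countably many strongly homogeneous subspaces. -/
def SigmaHomogeneousStrongWitnesses (X : Type) [TopologicalSpace X] : Prop :=
  ∃ A : ℕ → Set X, (⋃ n, A n) = Set.univ ∧ ∀ n, StronglyHomogeneous (A n)

/-- **Main theorem.** -/
theorem result :
    ∃ X : Set (ℕ → Bool),
      -- `X` is a nonempty zero-dimensional separable metrizable space
      X.Nonempty ∧ TopologicalSpace.SeparableSpace X ∧ TopologicalSpace.MetrizableSpace X ∧
      TopologicalSpace.IsTopologicalBasis {U : Set X | IsClopen U} ∧
      -- `X` is homogeneous, so it is `σ`-homogeneous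
      Homogeneous X ∧ SigmaHomogeneous X ∧
      -- `X` is not `σ`-homogeneous with strongly homogeneous witnesses
      ¬ SigmaHomogeneousStrongWitnesses X ∧
      -- countably many strongly homogeneous subspaces leave `𝔠` points uncovered
      ∀ A : ℕ → Set X, (∀ n, StronglyHomogeneous (A n)) → 𝔠 ≤ #((⋃ n, A n)ᶜ : Set X) := by
  obtain ⟨X, hX0, hX1, hX2⟩ := Pool.Agent.X182.SH.exists_set
  have hne : X.Nonempty := by
    have h := hX1 univ isClosed_univ (by simp)
    rw [univ_inter] at h
    by_contra hc
    rw [not_nonempty_iff_eq_empty] at hc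
    rw [hc] at h
    simp at h
    exact absurd h continuum_ne_zero
  have hhom : Homogeneous X := by
    intro x y
    have hm := mem_swap_iff hX0 x.2 y.2
    have hm' : ∀ p, p ∈ X → (swapHomeo x.1 y.1).symm p ∈ X := by
      intro p hp
      rw [hm]
      have h2 : swap x.1 y.1 ((swapHomeo x.1 y.1).symm p) = p :=
        (swapHomeo x.1 y.1).apply_symm_apply p
      rwa [h2]
    refine ⟨{ toFun := fun p => ⟨swapHomeo x.1 y.1 p.1, (hm _).1 p.2⟩
              invFun := fun p => ⟨(swapHomeo x.1 y.1).symm p.1, hm' _ p.2⟩
              left_inv := fun p => Subtype.ext (by simp)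
              right_inv := fun p => Subtype.ext (by simp)
              continuous_toFun := ?_
              continuous_invFun := ?_ }, ?_⟩
    · exact ((swapHomeo x.1 y.1).continuous.comp continuous_subtype_val).subtype_mk _
    · exact ((swapHomeo x.1 y.1).symm.continuous.comp continuous_subtype_val).subtype_mk _
    · exact Subtype.ext (swap_self x.1 y.1)
  have hmain : ∀ A : ℕ → Set X, (∀ n, StronglyHomogeneous (A n)) →
      𝔠 ≤ #((⋃ n, A n)ᶜ : Set X) := by
    intro A hA
    by_contra hc
    push Not at hc
    have h0 : ∀ n, Pool.Agent.X182.SH.mm (range fun p : A n => (p.1.1 : ℕ → Bool)) = 0 := by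
      intro n
      exact Pool.Agent.X182.SH.mm_range_eq_zero hX2 (fun p : A n => (p.1.1 : ℕ → Bool))
        (IsEmbedding.subtypeVal.comp IsEmbedding.subtypeVal) (fun p => p.1.2) (hA n)
    obtain ⟨S, hS, hS1⟩ := Pool.Agent.X182.SH.mm_iUnion_lt h0 (e := 1) one_ne_zero
    have h1 : #(S ∪ Subtype.val '' ((⋃ n, A n)ᶜ : Set X) : Set (ℕ → Bool)) < 𝔠 := by
      refine (mk_union_le _ _).trans_lt (add_lt_of_lt aleph0_le_continuum hS ?_)
      exact mk_image_le.trans_lt hc
    have h2 := Pool.Agent.X182.SH.one_le_diff hX1 h1
    have h3 : X \ (S ∪ Subtype.val '' ((⋃ n, A n)ᶜ : Set X)) ⊆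
        (⋃ n, range fun p : A n => (p.1.1 : ℕ → Bool)) \ S := by
      rintro z ⟨hz, hz'⟩
      refine ⟨?_, fun h => hz' (Or.inl h)⟩
      have h4 : (⟨z, hz⟩ : X) ∈ ⋃ n, A n := by
        by_contra h
        exact hz' (Or.inr ⟨⟨z, hz⟩, h, rfl⟩)
      obtain ⟨n, hn⟩ := mem_iUnion.1 h4
      exact mem_iUnion.2 ⟨n, ⟨⟨z, hz⟩, hn⟩, rfl⟩
    exact absurd (h2.trans (MeasureTheory.measure_mono h3)) (not_le.2 hS1)
  refine ⟨X, hne, inferInstance, inferInstance, ?_, hhom, ?_, ?_, hmain⟩
  · -- zero-dimensional
    refine TopologicalSpace.isTopologicalBasis_of_isOpen_of_nhds (fun U hU => hU.isOpen) ?_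
    intro x U hx hU
    obtain ⟨V, hV, rfl⟩ := isOpen_induced_iff.1 hU
    obtain ⟨k, hk⟩ := exists_agr_of_isOpen hV hx
    exact ⟨Subtype.val ⁻¹' {y | Agr k x.1 y},
      (Pool.Agent.X182.SH.isClopen_agr k x.1).preimage continuous_subtype_val,
      agr_refl k x.1, fun y hy => hk _ hy⟩
  · refine ⟨fun _ => univ, iUnion_const _, fun _ x y => ?_⟩
    obtain ⟨h, hh⟩ := hhom x.1 y.1
    refine ⟨((Homeomorph.Set.univ X).trans h).trans (Homeomorph.Set.univ X).symm, ?_⟩
    exact Subtype.ext hh
  · rintro ⟨A, hA, hA'⟩
    have h := hmain A hA'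
    rw [hA, compl_univ] at h
    simp at h
    exact absurd h continuum_ne_zero

end Pool.Agent.Results.MP_999952_gt.HomogeneousNotStrongly
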